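import Mathlib
import Pool.Agent.H220.TS.Stm

/-!
# `s_step (h : S_pick) : S_step` (board task 14225 for helper220)
-/

set_option autoImplicit false

open Set Filter Topology Metric
open scoped ComplexConjugate

namespace Pool.Agent.H663.TS

open Pool.Agent.H220.TS

theorem zero_mem : (0 : ℂ) ∈ D := by
  unfold D
  simp

theorem psi_nonneg (z w : ℂ) : 0 ≤ psi z w := norm_nonneg _

/-- the step is nonincreasing -/
theorem step_anti (h : S_pick) {φ : ℝ → ℂ → ℂ} (hφ : IsSemigroup φ) {s t : ℝ} (hs : 0 ≤ s) (ht : 0 ≤ t) :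
    psi (φ (s + t) 0) (φ (s + t + 1) 0) ≤ psi (φ t 0) (φ (t + 1) 0) := by
  have h1 : φ (s + t) 0 = φ s (φ t 0) := hφ.add s t hs ht 0 zero_mem
  have h2 : φ (s + t + 1) 0 = φ s (φ (t + 1) 0) := by
    rw [add_assoc]
    exact hφ.add s (t + 1) hs (by linarith) 0 zero_mem
  rw [h1, h2]
  exact h.2 (φ s) (hφ.holo s hs) (hφ.maps s hs) _ (hφ.maps t ht zero_mem) _
    (hφ.maps (t + 1) (by linarith) zero_mem)

theorem s_step (h : S_pick) : S_step := by
  intro φ hφ hnot
  set q : ℝ → ℝ := fun t => psi (φ (max t 0) 0) (φ (max t 0 + 1) 0) with hq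
  have hanti : Antitone q := by
    intro s t hst
    have h1 : max s 0 ≤ max t 0 := max_le_max hst le_rfl
    have h2 := step_anti h hφ (s := max t 0 - max s 0) (t := max s 0) (by linarith) (le_max_right _ _)
    rw [sub_add_cancel] at h2
    exact h2
  have hbdd : BddBelow (range q) := ⟨0, by rintro _ ⟨t, rfl⟩; exact psi_nonneg _ _⟩
  have hlim : Tendsto q atTop (𝓝 (⨅ t, q t)) := tendsto_atTop_ciInf hanti hbdd
  set l := ⨅ t, q t with hl
  have hl0 : 0 ≤ l := le_ciInf fun t => psi_nonneg _ _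
  have hl1 : l < 1 := by
    refine lt_of_le_of_lt (ciInf_le hbdd 0) ?_
    exact h.1 _ (hφ.maps _ (le_max_right _ _) zero_mem) _
      (hφ.maps _ (by have := le_max_right (0 : ℝ) 0; linarith) zero_mem)
  have hev : ∀ t : ℝ, 0 ≤ t → q t = psi (φ t 0) (φ (t + 1) 0) := fun t ht => by
    simp only [hq, max_eq_left ht]
  have hlpos : 0 < l := by
    refine lt_of_le_of_ne hl0 fun h0 => hnot ?_
    rw [h0]
    refine (hlim.comp tendsto_natCast_atTop_atTop).congr fun n => ?_
    exact hev n (Nat.cast_nonneg n)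
  refine ⟨1 / 2 * Real.log ((1 + l) / (1 - l)), ?_, ?_⟩
  · have h1 : 1 < (1 + l) / (1 - l) := by
      rw [lt_div_iff₀ (by linarith)]
      linarith
    have := Real.log_pos h1
    positivity
  · have h1 : Tendsto (fun t => 1 / 2 * Real.log ((1 + q t) / (1 - q t))) atTop
        (𝓝 (1 / 2 * Real.log ((1 + l) / (1 - l)))) := by
      apply Tendsto.const_mul
      apply Tendsto.log
      · exact (tendsto_const_nhds.add hlim).div (tendsto_const_nhds.sub hlim) (by linarith)
      · have : 0 < (1 + l) / (1 - l) := div_pos (by linarith) (by linarith)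
        exact this.ne'
    refine h1.congr' ?_
    filter_upwards [eventually_ge_atTop (0 : ℝ)] with t ht
    unfold omega
    rw [hev t ht]

end Pool.Agent.H663.TS

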